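import Mathlib
import Pool.Agent.helper36.KCDefs

/-!
Definitions for hypergraphs in which, outside few vertices of each part, the edges hardly meet.
-/

namespace Pool.Agent.helper82.KCG

open Pool.Agent.helper36.KC

/-- There are a set `A` of at most `m` parts and finite vertex sets `B i`, the numbers of vertices
of the sets `B i` beyond two adding up to at most `b` outside `A`, such that every edge meets at
most `l` other edges in vertices of the parts outside `A` which do not lie in the sets `B i`. -/
def Concentrated {r : ℕ} {V : Fin r → Type} (m b l : ℕ) (H : Set (Edge V)) : Prop :=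
  ∃ (A : Finset (Fin r)) (B : ∀ i, Finset (V i)), A.card ≤ m ∧
    (∑ i ∈ Aᶜ, ((B i).card - 2)) ≤ b ∧
    ∀ e ∈ H, {f | f ∈ H ∧ f ≠ e ∧ ∃ i ∉ A, e i = f i ∧ e i ∉ B i}.ncard ≤ l

/-- The version of `Forces` for these hypergraphs. -/
def ForcesConc (m b l r t k : ℕ) : Prop :=
  ∀ (V : Fin r → Type) [∀ i, Finite (V i)] (H : Set (Edge V)),
    Concentrated m b l H → HasIntersectingCovers H k → coverNumber H ≤ t

/-- The parameter `kc_r(t)` restricted to these hypergraphs. -/
noncomputable def kcConc (m b l r t : ℕ) : ℕ := sInf {k | 1 ≤ k ∧ ForcesConc m b l r t k}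

end Pool.Agent.helper82.KCG
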