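import Mathlib
import Pool.Agent.helper36.KCDefs
import Pool.Agent.helper36.KCBin
import Pool.Agent.helper82.KCE.Star
import Pool.Agent.helper82.KCG.Defs

/-!
Upper bound for hypergraphs with few branching vertices.
-/

namespace Pool.Agent.helper82.KCG

open Finset Pool.Agent.helper36.KC Pool.Agent.helper82.KCA Pool.Agent.helper82.KCE

lemma mid_succ_le (n : ℕ) : (n + 1).choose ((n + 1) / 2) ≤ 2 * n.choose (n / 2) := by
  rcases Nat.even_or_odd' n with ⟨l, rfl | rfl⟩
  · have h1 : (2 * l + 1) / 2 = l := by omega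
    have h2 : 2 * l / 2 = l := by omega
    rw [h1, h2]
    rcases Nat.eq_zero_or_pos l with rfl | hl
    · simp
    · obtain ⟨j, rfl⟩ : ∃ j, l = j + 1 := ⟨l - 1, by omega⟩
      rw [Nat.choose_succ_succ, Nat.succ_eq_add_one]
      have h3 := Nat.choose_le_middle j (2 * (j + 1))
      rw [h2] at h3
      omega
  · have h1 : (2 * l + 1 + 1) / 2 = l + 1 := by omega
    have h2 : (2 * l + 1) / 2 = l := by omega
    rw [h1, h2, Nat.choose_succ_succ, Nat.succ_eq_add_one]
    have h3 := Nat.choose_le_middle (l + 1) (2 * l + 1)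
    rw [h2] at h3
    omega

lemma mid_add_le (n j : ℕ) : (n + j).choose ((n + j) / 2) ≤ 2 ^ j * n.choose (n / 2) := by
  induction j with
  | zero => simp
  | succ j ih =>
    calc (n + (j + 1)).choose ((n + (j + 1)) / 2)
        ≤ 2 * (n + j).choose ((n + j) / 2) := mid_succ_le (n + j)
      _ ≤ 2 * (2 ^ j * n.choose (n / 2)) := Nat.mul_le_mul_left _ ih
      _ = 2 ^ (j + 1) * n.choose (n / 2) := by ring

lemma exists_two {X : Type} (s : Finset X) (hs : s.card ≤ 2) (x0 : X) :
    ∃ u v : X, ∀ x ∈ s, x = u ∨ x = v := by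
  classical
  rcases Nat.lt_or_ge s.card 1 with h0 | h1
  · have : s = ∅ := by rw [← card_eq_zero]; omega
    subst this
    exact ⟨x0, x0, by simp⟩
  · rcases Nat.lt_or_ge s.card 2 with h2 | h2
    · obtain ⟨a, rfl⟩ := card_eq_one.1 (by omega : s.card = 1)
      exact ⟨a, a, by simp⟩
    · obtain ⟨a, b, -, rfl⟩ := card_eq_two.1 (by omega : s.card = 2)
      exact ⟨a, b, by simp⟩

/-- Upper bound. -/
theorem forcesConc_upper {m b l r : ℕ} (hmr : m + b ≤ r) :
    ForcesConc m b l r r ((1 + l) * (2 ^ (m + b) *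
      ((2 ^ m - m + 1 + 2 * b) * (r - m - b).choose ((r - m - b) / 2)))) := by
  classical
  intro V hfin H hFB hH
  obtain ⟨c, hc1, -⟩ := hH
  by_contra hcon
  push Not at hcon
  obtain ⟨A0, B, hA0, hsum0, hB0⟩ := hFB
  obtain ⟨A, hA0A, hA⟩ := Finset.exists_superset_card_eq hA0 (by
    rw [Fintype.card_fin]; omega : m ≤ Fintype.card (Fin r))
  have hfinE : Finite (Edge V) := inferInstance
  -- the neighbours of an edge
  let N : Edge V → Finset (Edge V) := fun e =>
    (Set.toFinite {f | f ∈ H ∧ f ≠ e ∧ ∃ i ∉ A, e i = f i ∧ e i ∉ B i}).toFinset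
  have hNcard : ∀ e ∈ H, (N e).card ≤ l := by
    intro e he
    rw [← Set.ncard_eq_toFinset_card]
    refine le_trans (Set.ncard_le_ncard ?_ (Set.toFinite _)) (hB0 e he)
    rintro f ⟨hf, hne, i, hi, h1, h2⟩
    exact ⟨hf, hne, i, fun h => hi (hA0A h), h1, h2⟩
  have hNmem : ∀ e f, f ∈ H → f ≠ e → (∃ i ∉ A, e i = f i ∧ e i ∉ B i) → f ∈ N e := by
    intro e f h1 h2 h3
    exact (Set.Finite.mem_toFinset _).2 ⟨h1, h2, h3⟩
  have hsum : (∑ i ∈ Aᶜ, ((B i).card - 2)) ≤ b := by
    refine le_trans (Finset.sum_le_sum_of_subset ?_) hsum0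
    exact compl_subset_compl.2 hA0A
  -- small vertex sets are not covers
  have hnc : ∀ C : Finset (Σ i, V i), C.card ≤ r → ∃ e ∈ H, ∀ i, (⟨i, e i⟩ : Σ i, V i) ∉ C := by
    intro C hC
    by_contra hno
    push Not at hno
    have : coverNumber H ≤ C.card := Nat.sInf_le ⟨C, hno, rfl⟩
    omega
  obtain ⟨e₀, he₀, -⟩ := hnc ∅ (by simp)
  -- the three kinds of parts
  set A2 : Finset (Fin r) := Aᶜ.filter fun i => 3 ≤ (B i).card with hA2
  set R : Finset (Fin r) := Aᶜ.filter fun i => ¬ 3 ≤ (B i).card with hR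
  have hm2R : A2.card + R.card = r - m := by
    rw [hA2, hR, Finset.card_filter_add_card_filter_not, card_compl, hA, Fintype.card_fin]
  have hsum2 : (∑ i ∈ A2, ((B i).card - 2)) ≤ b :=
    le_trans (Finset.sum_le_sum_of_subset (filter_subset _ _)) hsum
  have hm2b : A2.card ≤ b := by
    refine le_trans ?_ hsum2
    rw [Finset.card_eq_sum_ones]
    refine Finset.sum_le_sum fun i hi => ?_
    have := (mem_filter.1 hi).2
    omega
  have hQ : (∑ i ∈ A2, (B i).card) ≤ b + 2 * A2.card := by
    have h1 : (∑ i ∈ A2, (B i).card) = (∑ i ∈ A2, ((B i).card - 2)) + ∑ _i ∈ A2, 2 := by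
      rw [← Finset.sum_add_distrib]
      refine Finset.sum_congr rfl fun i hi => ?_
      have := (mem_filter.1 hi).2
      omega
    rw [h1, sum_const, smul_eq_mul]
    omega
  have hQ3 : A2.card ≤ (∑ i ∈ A2, (B i).card) := by
    rw [Finset.card_eq_sum_ones]
    refine Finset.sum_le_sum fun i hi => ?_
    have := (mem_filter.1 hi).2
    omega
  have huv : ∀ i : {i // i ∈ R}, ∃ u v : V i.1, ∀ x ∈ B i.1, x = u ∨ x = v := by
    intro i
    refine exists_two (B i.1) ?_ (e₀ i.1)
    have := (mem_filter.1 i.2).2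
    omega
  choose u v huv using huv
  have hRA : ∀ i ∈ R, i ∉ A := fun i hi => by
    have := (mem_filter.1 hi).1
    rwa [mem_compl] at this
  have hA2A : ∀ i ∈ A2, i ∉ A := fun i hi => by
    have := (mem_filter.1 hi).1
    rwa [mem_compl] at this
  have hcover : ∀ i, i ∉ A → i ∉ A2 → i ∈ R := by
    intro i h1 h2
    rw [hR, mem_filter, mem_compl]
    refine ⟨h1, fun h3 => h2 ?_⟩
    rw [hA2, mem_filter, mem_compl]
    exact ⟨h1, h3⟩
  -- indices
  let α : Type := {i // i ∈ A}
  let β : Type := {i // i ∈ A2}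
  let k : ℕ := R.card
  have hcα : Fintype.card α = m := by
    show Fintype.card {i // i ∈ A} = m
    rw [Fintype.card_coe, hA]
  have hcβ : Fintype.card β = A2.card := by
    show Fintype.card {i // i ∈ A2} = A2.card
    rw [Fintype.card_coe]
  let σ : Fin k ≃ {i // i ∈ R} := R.equivFin.symm
  let V' : α ⊕ β → Type := fun i => match i with
    | Sum.inl i => V i.1
    | Sum.inr i => V i.1
  have hfin' : ∀ i, Finite (V' i) := by
    rintro (i | i)
    · exact hfin i.1
    · exact hfin i.1
  let B' : ∀ i : β, Finset (V' (Sum.inr i)) := fun i => B i.1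
  let ws : Edge V → ∀ i, V' i := fun e i => match i with
    | Sum.inl i => e i.1
    | Sum.inr i => e i.1
  let ψ : Edge V → (∀ i, V' i) × (Fin k → Option Bool) := fun e =>
    (ws e, fun j => if e (σ j).1 = u (σ j) then some false
      else if e (σ j).1 = v (σ j) then some true else none)
  have hψf : ∀ e j, (ψ e).2 j = some false → e (σ j).1 = u (σ j) := by
    intro e j h
    by_contra hne
    simp only [ψ, if_neg hne] at h
    split_ifs at h
    simp at h
  have hψt : ∀ e j, (ψ e).2 j = some true → e (σ j).1 = v (σ j) := by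
    intro e j h
    by_contra hne
    simp only [ψ, if_neg hne] at h
    split_ifs at h
    simp at h
  let vtx : (Σ i, V' i) → Σ i, V i := fun l => match l with
    | ⟨Sum.inl i, x⟩ => ⟨i.1, x⟩
    | ⟨Sum.inr i, x⟩ => ⟨i.1, x⟩
  have hav : AvoidsAll' (fun (y : ∀ i, V' i) (l : Σ i, V' i) => y l.1 = l.2)
      (m + A2.card + k) (ψ '' H) := by
    intro C X Y hXY
    obtain ⟨e, he, hm'⟩ := hnc
      (C.image vtx ∪
        (X.image (fun j => (⟨(σ j).1, u (σ j)⟩ : Σ i, V i)) ∪
        Y.image (fun j => (⟨(σ j).1, v (σ j)⟩ : Σ i, V i)))) (by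
        have h1 := card_union_le (C.image vtx)
          (X.image (fun j => (⟨(σ j).1, u (σ j)⟩ : Σ i, V i)) ∪
            Y.image (fun j => (⟨(σ j).1, v (σ j)⟩ : Σ i, V i)))
        have h2 := card_union_le (X.image (fun j => (⟨(σ j).1, u (σ j)⟩ : Σ i, V i)))
            (Y.image (fun j => (⟨(σ j).1, v (σ j)⟩ : Σ i, V i)))
        have h3 := card_image_le (s := C) (f := vtx)
        have h4 := card_image_le (s := X) (f := fun j => (⟨(σ j).1, u (σ j)⟩ : Σ i, V i))
        have h5 := card_image_le (s := Y) (f := fun j => (⟨(σ j).1, v (σ j)⟩ : Σ i, V i))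
        have h6 : k = R.card := rfl
        omega)
    refine ⟨ψ e, ⟨e, he, rfl⟩, ?_, ?_, ?_⟩
    · rintro ⟨i | i, x⟩ hl hinc
      · refine hm' i.1 (mem_union_left _ (mem_image.2 ⟨⟨Sum.inl i, x⟩, hl, ?_⟩))
        have : e i.1 = x := hinc
        rw [this]
      · refine hm' i.1 (mem_union_left _ (mem_image.2 ⟨⟨Sum.inr i, x⟩, hl, ?_⟩))
        have : e i.1 = x := hinc
        rw [this]
    · intro j hj h
      refine hm' (σ j).1 (mem_union_right _ (mem_union_left _ (mem_image.2 ⟨j, hj, ?_⟩)))
      rw [hψf e j h]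
    · intro j hj h
      refine hm' (σ j).1 (mem_union_right _ (mem_union_right _ (mem_image.2 ⟨j, hj, ?_⟩)))
      rw [hψt e j h]
  -- the covering lemma
  have h2m : m + 1 ≤ 2 ^ m := Nat.lt_two_pow_self
  have hQβ : (∑ i : β, (B' i).card) = ∑ i ∈ A2, (B i).card :=
    Finset.sum_coe_sort A2 (fun i => (B i).card)
  obtain ⟨T, hT, hTc, hTw⟩ := cover_words (F := GF (WO V')) (m := m + A2.card)
    (g := 2 ^ m - 1 + ∑ i ∈ A2, (B i).card)
    (D := 2 ^ m - 1 + (∑ i ∈ A2, (B i).card) - (m + A2.card)) (by omega)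
    (φ := PhiS B') (by
      intro Y hY
      refine star_full B' Y ?_
      intro C hC
      rw [hcα, hQβ] at hC
      exact hY C hC) hav
  have hM : Module.finrank (GF (WO V')) ((α ⊕ β → Bool) → GF (WO V')) = 2 ^ (m + A2.card) := by
    rw [Module.finrank_fintype_fun_eq_card]
    have : Fintype.card (α ⊕ β → Bool) = 2 ^ (Fintype.card α + Fintype.card β) := by simp
    rw [this, hcα, hcβ]
  have hTc' : T.card ≤ 2 ^ (m + b) *
      ((2 ^ m - m + 1 + 2 * b) * (r - m - b).choose ((r - m - b) / 2)) := by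
    refine hTc.trans ?_
    rw [hM]
    have hk : k = (r - m - b) + (b - A2.card) := by
      have : k = R.card := rfl
      omega
    have h1 : k.choose (k / 2) ≤
        2 ^ (b - A2.card) * (r - m - b).choose ((r - m - b) / 2) := by
      rw [hk]
      exact mid_add_le _ _
    calc 2 ^ (m + A2.card) * ((2 ^ m - 1 + (∑ i ∈ A2, (B i).card) - (m + A2.card) + 2) *
          k.choose (k / 2))
        ≤ 2 ^ (m + A2.card) * ((2 ^ m - m + 1 + 2 * b) *
          (2 ^ (b - A2.card) * (r - m - b).choose ((r - m - b) / 2))) := by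
          refine Nat.mul_le_mul_left _ (Nat.mul_le_mul ?_ h1)
          omega
      _ = 2 ^ (m + A2.card + (b - A2.card)) * ((2 ^ m - m + 1 + 2 * b) *
          (r - m - b).choose ((r - m - b) / 2)) := by
          rw [pow_add 2 (m + A2.card) (b - A2.card)]
          ring
      _ = _ := by
          have : m + A2.card + (b - A2.card) = m + b := by omega
          rw [this]
  set X : ℕ := 2 ^ (m + b) *
      ((2 ^ m - m + 1 + 2 * b) * (r - m - b).choose ((r - m - b) / 2)) with hX
  have hX2 : 2 ≤ X := by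
    have h1 : 1 ≤ 2 ^ (m + b) := Nat.one_le_two_pow
    have h2 : 1 ≤ (r - m - b).choose ((r - m - b) / 2) := Nat.choose_pos (by omega)
    calc 2 = 1 * (2 * 1) := by norm_num
      _ ≤ _ := Nat.mul_le_mul h1 (Nat.mul_le_mul (by omega) h2)
  have hT' : ∀ t, ∃ e : Edge V, t ∈ T → e ∈ H ∧ ψ e = t := by
    intro t
    by_cases ht : t ∈ T
    · obtain ⟨e, he, hψe⟩ := hT t ht
      exact ⟨e, fun _ => ⟨he, hψe⟩⟩
    · exact ⟨e₀, fun h => absurd h ht⟩
  choose ed hed using hT'
  have hed1 : ∀ t ∈ T, ed t ∈ H := fun t ht => (hed t ht).1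
  have hed2 : ∀ t ∈ T, ψ (ed t) = t := fun t ht => (hed t ht).2
  -- a disjoint edge
  have hdis : ∀ E : Edge V, ∃ f ∈ H, ∀ i, f i ≠ E i := by
    intro E
    obtain ⟨f, hf, hf'⟩ := hnc (univ.image fun i => (⟨i, E i⟩ : Σ i, V i)) (by
      refine card_image_le.trans ?_
      rw [card_univ, Fintype.card_fin])
    refine ⟨f, hf, fun i hi => hf' i (mem_image.2 ⟨i, mem_univ _, ?_⟩)⟩
    rw [hi]
  choose F hFH hFd using hdis
  -- edges avoiding all the special vertices
  by_cases hsp : ∃ h ∈ H, ∀ i, i ∉ A ∧ h i ∉ B i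
  · obtain ⟨h, hhH, hh⟩ := hsp
    obtain ⟨hEH, hEmeet⟩ := hc1 (insert h ((insert h (N h)).image F)) (by
      intro f hf
      rw [mem_insert, mem_image] at hf
      rcases hf with rfl | ⟨g, -, rfl⟩
      · exact hhH
      · exact hFH g) (by
      have h1 := card_insert_le h ((insert h (N h)).image F)
      have h2 := card_image_le (s := insert h (N h)) (f := F)
      have h3 := card_insert_le h (N h)
      have h4 := hNcard h hhH
      have h5 : (1 + l) * 2 ≤ (1 + l) * X := Nat.mul_le_mul_left _ hX2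
      omega)
    set E := c (insert h ((insert h (N h)).image F)) with hE
    obtain ⟨i, hi⟩ := hEmeet h (mem_insert_self _ _)
    have hEN : E ∈ insert h (N h) := by
      by_cases hEh : E = h
      · rw [hEh]; exact mem_insert_self _ _
      · exact mem_insert_of_mem (hNmem h E hEH hEh ⟨i, (hh i).1, hi.symm, (hh i).2⟩)
    obtain ⟨j, hj⟩ := hEmeet (F E) (mem_insert_of_mem (mem_image_of_mem F hEN))
    exact hFd E j hj.symm
  · push Not at hsp
    -- the covering edge
    set T1 : Finset (Edge V) := T.image ed with hT1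
    have hT1H : ∀ f ∈ T1, f ∈ H := by
      intro f hf
      rw [hT1, mem_image] at hf
      obtain ⟨t, ht, rfl⟩ := hf
      exact hed1 t ht
    have hT1c : T1.card ≤ X := card_image_le.trans hTc'
    obtain ⟨hEH, hEmeet⟩ := hc1 (T1 ∪ (T1.biUnion N).image F) (by
      intro f hf
      rcases mem_union.1 hf with hf | hf
      · exact hT1H f hf
      · obtain ⟨g, -, rfl⟩ := mem_image.1 hf
        exact hFH g) (by
      have h1 := card_union_le T1 ((T1.biUnion N).image F)
      have h2 := card_image_le (s := T1.biUnion N) (f := F)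
      have h3 : (T1.biUnion N).card ≤ T1.card * l :=
        card_biUnion_le_card_mul T1 N l (fun e he => hNcard e (hT1H e he))
      have h4 : T1.card * l ≤ X * l := Nat.mul_le_mul_right _ hT1c
      have h5 : (1 + l) * X = X + X * l := by ring
      omega)
    set E := c (T1 ∪ (T1.biUnion N).image F) with hE
    let x : Fin k → Bool := fun j => if E (σ j).1 = u (σ j) then false else true
    -- a member of the family which misses `E`
    have hex : ∃ p ∈ ψ '' H, ¬ PhiS B' p.1 ≤
        LinearMap.ker (gpsi (WO V') (fun i => some (ws E i))) ∧ MissW p.2 x := by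
      obtain ⟨p, hpS, hpC, hp0, hp1⟩ := hav (univ.image fun i => (⟨i, ws E i⟩ : Σ i, V' i))
        (univ.filter fun i => x i = false) (univ.filter fun i => x i = true) (by
          have h1 : (univ.filter fun i => x i = false).card +
              (univ.filter fun i => x i = true).card = k := by
            have h := Finset.card_filter_add_card_filter_not (s := (univ : Finset (Fin k)))
              (fun i => x i = false)
            simp only [card_univ, Fintype.card_fin, Bool.not_eq_false] at h
            exact h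
          have h2 : (univ.image fun i => (⟨i, ws E i⟩ : Σ i, V' i)).card ≤ m + A2.card := by
            refine card_image_le.trans ?_
            rw [card_univ, Fintype.card_sum, hcα, hcβ]
          omega)
      refine ⟨p, hpS, ?_, ?_⟩
      · rw [not_PhiS_le_iff]
        refine ⟨fun i hi => ?_, fun i _ hi => ?_⟩
        · exact hpC ⟨Sum.inl i, ws E (Sum.inl i)⟩ (mem_image.2 ⟨_, mem_univ _, rfl⟩) hi.symm
        · exact hpC ⟨Sum.inr i, ws E (Sum.inr i)⟩ (mem_image.2 ⟨_, mem_univ _, rfl⟩) hi.symm
      · intro i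
        cases hw : x i with
        | false => exact hp0 i (by simp [hw])
        | true => exact hp1 i (by simp [hw])
    obtain ⟨t, htT, htΨ, htx⟩ := hTw _ x hex
    rw [not_PhiS_le_iff] at htΨ
    obtain ⟨hta, htb⟩ := htΨ
    have htT1 : ed t ∈ T1 := mem_image_of_mem ed htT
    obtain ⟨i, hi⟩ := hEmeet (ed t) (mem_union_left _ htT1)
    have hψ : ψ (ed t) = t := hed2 t htT
    have ht1 : t.1 = ws (ed t) := (congrArg Prod.fst hψ).symm
    have ht2 : ∀ j, t.2 j = if ed t (σ j).1 = u (σ j) then some false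
          else if ed t (σ j).1 = v (σ j) then some true else none :=
        fun j => (congrFun (congrArg Prod.snd hψ) j).symm
    have hαne : ∀ i, i ∈ A → E i ≠ ed t i := by
      intro i hiA h
      apply hta ⟨i, hiA⟩
      rw [ht1]
      exact h
    have hβne : ∀ i, i ∈ A2 → E i = ed t i → E i ∉ B i := by
      intro i hiA2 h hEB
      refine htb ⟨i, hiA2⟩ ?_ ?_
      · rw [ht1]
        show ed t i ∈ B i
        rw [← h]
        exact hEB
      · rw [ht1]
        exact h
    have hRne : ∀ i, i ∈ R → E i = ed t i → E i ∉ B i := by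
      intro i hiR h hEB
      obtain ⟨j, hj⟩ := σ.surjective ⟨i, hiR⟩
      have hji : (σ j).1 = i := by rw [hj]
      subst hji
      have hi1 : E (σ j).1 ≠ u (σ j) := by
        intro h'
        have h2 : t.2 j = some false := by
          rw [ht2, if_pos (by rw [← h, h'])]
        have h3 : x j = false := by simp only [x]; rw [if_pos h']
        exact htx j (by rw [h2, h3])
      have hi2 : E (σ j).1 ≠ v (σ j) := by
        intro h'
        have h2 : t.2 j = some true := by
          rw [ht2, if_neg (by rw [← h]; exact hi1), if_pos (by rw [← h, h'])]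
        have h3 : x j = true := by simp only [x]; rw [if_neg hi1]
        exact htx j (by rw [h2, h3])
      rcases huv (σ j) _ hEB with h' | h'
      · exact hi1 h'
      · exact hi2 h'
    have hne : ∀ i, i ∉ A → E i = ed t i → E i ∉ B i := by
      intro i hiA h
      by_cases hiA2 : i ∈ A2
      · exact hβne i hiA2 h
      · exact hRne i (hcover i hiA hiA2) h
    have hiA : i ∉ A := fun hiA => hαne i hiA hi
    by_cases hEt : E = ed t
    · -- then `E` avoids all the special vertices
      have hall : ∀ i, E i = ed t i := fun i => congrFun hEt i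
      obtain ⟨j, hj⟩ := hsp E hEH
      have hjA : j ∉ A := fun hjA => hαne j hjA (hall j)
      exact hne j hjA (hall j) (hj hjA)
    · have hEN : E ∈ T1.biUnion N := by
        refine mem_biUnion.2 ⟨ed t, htT1, hNmem (ed t) E hEH hEt ⟨i, hiA, hi.symm, ?_⟩⟩
        rw [← hi]
        exact hne i hiA hi
      obtain ⟨j, hj⟩ := hEmeet (F E) (mem_union_right _ (mem_image_of_mem F hEN))
      exact hFd E j hj.symm

end Pool.Agent.helper82.KCG
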