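import Mathlib
import Pool.Agent.helper82.KCA.Asymp
import Pool.Agent.helper82.KCG.Defs
import Pool.Agent.helper82.KCG.Main

/-!
Bounds for hypergraphs in which, outside few vertices of each part, the edges hardly meet.
-/

namespace Pool.Agent.helper82.KCG

open Finset Pool.Agent.helper36.KC Pool.Agent.helper82.KCA

theorem kcConc_mem {m b l r : ℕ} (hmr : m + b ≤ r) :
    (1 + l) * (2 ^ (m + b) *
      ((2 ^ m - m + 1 + 2 * b) * (r - m - b).choose ((r - m - b) / 2))) ∈
      {k | 1 ≤ k ∧ ForcesConc m b l r r k} := by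
  refine ⟨?_, forcesConc_upper hmr⟩
  have h1 : 0 < (r - m - b).choose ((r - m - b) / 2) := Nat.choose_pos (by omega)
  exact Nat.mul_pos (by omega) (Nat.mul_pos (by positivity) (Nat.mul_pos (by omega) h1))

theorem kcConc_le {m b l r : ℕ} (hmr : m + b ≤ r) :
    kcConc m b l r r ≤ (1 + l) * (2 ^ (m + b) *
      ((2 ^ m - m + 1 + 2 * b) * (r - m - b).choose ((r - m - b) / 2))) :=
  Nat.sInf_le (kcConc_mem hmr)

theorem kcTwo_le_kcConc {m b l r : ℕ} (hmr : m + b ≤ r) :
    kcTwo r r ≤ kcConc m b l r r := by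
  classical
  have hmem : kcConc m b l r r ∈ {k | 1 ≤ k ∧ ForcesConc m b l r r k} :=
    Nat.sInf_mem ⟨_, kcConc_mem hmr⟩
  refine Nat.sInf_le ⟨hmem.1, ?_⟩
  intro V _ H hTB hH
  refine hmem.2 V H ?_ hH
  choose u v huv using hTB
  refine ⟨∅, fun i => {u i, v i}, by simp, ?_, ?_⟩
  · have : ∀ i : Fin r, (({u i, v i} : Finset (V i)).card - 2) = 0 := fun i => by
      have := Finset.card_le_two (a := u i) (b := v i)
      omega
    simp [this]
  · intro e he
    have h0 : {f | f ∈ H ∧ f ≠ e ∧ ∃ i ∉ (∅ : Finset (Fin r)),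
        e i = f i ∧ e i ∉ ({u i, v i} : Finset (V i))} = ∅ := by
      rw [Set.eq_empty_iff_forall_notMem]
      rintro f ⟨hf, hne, i, -, h1, h2⟩
      simp only [mem_insert, mem_singleton, not_or] at h2
      exact hne (huv i e he f hf h1 h2.1 h2.2).symm
    rw [h0, Set.ncard_empty]
    exact Nat.zero_le _

theorem kcConc_lower {m b l r : ℕ} (hr : 5 ≤ r) (hmr : m + b ≤ r) :
    (r + 1).choose (r / 2 + 2) + 1 ≤ kcConc m b l r r :=
  (kcTwo_lower hr).trans (kcTwo_le_kcConc hmr)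

end Pool.Agent.helper82.KCG
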