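import Mathlib
import Pool.Agent.helper82.KCA.Asymp
import Pool.Agent.helper82.KCG.Final

/-!
Asymptotics for hypergraphs in which, outside few vertices of each part, the edges hardly meet.
-/

namespace Pool.Agent.helper82.KCG

open Finset Filter Asymptotics Pool.Agent.helper36.KC Pool.Agent.helper82.KCA

/-- a set with at most two elements lies in a pair -/
lemma exists_pair {α : Type} (s : Finset α) (hs : s.card ≤ 2) (x : α) :
    ∃ u v : α, ∀ y, y ≠ u → y ≠ v → y ∉ s := by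
  classical
  have h : s.card = 0 ∨ s.card = 1 ∨ s.card = 2 := by omega
  rcases h with h | h | h
  · rw [card_eq_zero] at h
    subst h
    exact ⟨x, x, fun y _ _ => by simp⟩
  · obtain ⟨a, rfl⟩ := card_eq_one.1 h
    exact ⟨a, a, fun y hy _ => by simpa using hy⟩
  · obtain ⟨a, b, -, hab⟩ := card_eq_two.1 h
    refine ⟨a, b, fun y hy1 hy2 hy => ?_⟩
    rw [hab] at hy
    have := List.mem_cons.1 (by simpa using hy : y ∈ [a, b])
    rcases this with h1 | h1
    · exact hy1 h1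
    · exact hy2 (by simpa using h1)

/-- the cover number of the empty hypergraph -/
lemma coverNumber_empty {r : ℕ} {V : Fin r → Type} :
    coverNumber (∅ : Set (Edge V)) = 0 := by
  refine Nat.eq_zero_of_le_zero (Nat.sInf_le ⟨∅, ?_, by simp⟩)
  intro e he
  exact absurd he (Set.notMem_empty e)

/-- for `b = l = 0` this is the class of the previous theorem (the empty hypergraph aside) -/
theorem kcConc_le_kcAlmost {m r : ℕ} (hmr : m ≤ r) (hr : 1 ≤ r) :
    kcConc m 0 0 r r ≤ kcAlmost m r r := by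
  have hne : {k | 1 ≤ k ∧ ForcesAlmost m r r k}.Nonempty := by
    rcases Nat.eq_zero_or_pos m with rfl | hm
    · exact ⟨_, (kcTwo_mem hr).1, forcesAlmost_zero_iff.2 (kcTwo_mem hr).2⟩
    · exact ⟨_, kcAlmost_mem hm hmr⟩
  have hmem : kcAlmost m r r ∈ {k | 1 ≤ k ∧ ForcesAlmost m r r k} := Nat.sInf_mem hne
  refine Nat.sInf_le ⟨hmem.1, ?_⟩
  intro V _ H hF hH
  obtain ⟨A, B, hA, hB, hAB⟩ := hF
  rcases Set.eq_empty_or_nonempty H with rfl | ⟨e0, _⟩
  · rw [coverNumber_empty]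
    exact Nat.zero_le _
  · refine hmem.2 V H ⟨A, hA, fun i hi => ?_⟩ hH
    have h0 : (B i).card - 2 = 0 := by
      have h1 : (B i).card - 2 ≤ ∑ j ∈ Aᶜ, ((B j).card - 2) :=
        single_le_sum (f := fun j => (B j).card - 2) (fun _ _ => Nat.zero_le _)
          (mem_compl.2 hi)
      omega
    obtain ⟨u, v, huv⟩ := exists_pair (B i) (by omega) (e0 i)
    refine ⟨u, v, fun e he f hf hef h1 h2 => ?_⟩
    by_contra hne'
    have h3 := hAB e he
    have hfinE : Finite (Edge V) := inferInstance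
    have h4 : {f | f ∈ H ∧ f ≠ e ∧ ∃ i ∉ A, e i = f i ∧ e i ∉ B i} = ∅ := by
      rw [← Set.ncard_eq_zero (Set.toFinite _)]
      omega
    have h5 : f ∈ {f | f ∈ H ∧ f ≠ e ∧ ∃ i ∉ A, e i = f i ∧ e i ∉ B i} :=
      ⟨hf, fun h => hne' h.symm, i, hi, hef, huv _ h1 h2⟩
    rw [h4] at h5
    exact h5

/-- exact asymptotics for at most one arbitrary part and no other excess -/
theorem kcConc_asymp {m : ℕ} (hm : m ≤ 1) :
    Tendsto (fun r : ℕ => (kcConc m 0 0 r r : ℝ) / ((r + 1).choose ((r + 1) / 2) : ℕ))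
      atTop (nhds 1) := by
  have hlim : Tendsto (fun r : ℕ => (r : ℝ) / (r + 4)) atTop (nhds 1) := by
    have h1 : Tendsto (fun r : ℕ => 1 - 4 / ((r : ℝ) + 4)) atTop (nhds (1 - 0)) := by
      refine Tendsto.sub tendsto_const_nhds ?_
      refine Tendsto.div_atTop tendsto_const_nhds ?_
      exact tendsto_atTop_add_const_right _ _ tendsto_natCast_atTop_atTop
    rw [sub_zero] at h1
    refine h1.congr fun r => ?_
    have : (r : ℝ) + 4 ≠ 0 := by positivity
    field_simp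
    ring
  refine tendsto_of_tendsto_of_tendsto_of_le_of_le' hlim (kcAlmost_asymp hm) ?_ ?_
  · filter_upwards [eventually_ge_atTop 5] with r hr
    have hpos : (0 : ℝ) < ((r + 1).choose ((r + 1) / 2) : ℕ) := by
      exact_mod_cast Nat.choose_pos (by omega)
    rw [le_div_iff₀ hpos]
    refine (ratio_bound hr).trans ?_
    have := kcConc_lower (m := m) (b := 0) (l := 0) hr (by omega)
    exact_mod_cast (by omega : (r + 1).choose (r / 2 + 2) ≤ kcConc m 0 0 r r)
  · filter_upwards [eventually_ge_atTop 1] with r hr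
    refine div_le_div_of_nonneg_right ?_ (by positivity)
    exact_mod_cast kcConc_le_kcAlmost (m := m) (r := r) (by omega) hr

/-- the factor of the upper bound is nonnegative -/
lemma facb_nonneg (m b : ℕ) : (0 : ℝ) ≤ 2 ^ m - m + 1 + 2 * b := by
  have := fac_nonneg m
  positivity

/-- explicit upper bound -/
theorem kcConc_upper_real {m b l r : ℕ} (hmr : m + b ≤ r) :
    (kcConc m b l r r : ℝ) ≤
      (1 + l) * ((2 ^ m - m + 1 + 2 * b) * (2 ^ r / √((r : ℝ) - m - b + 1))) := by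
  have h1 := kcConc_le (l := l) hmr
  have hm2 : m ≤ 2 ^ m := Nat.lt_two_pow_self.le
  have h2 : (kcConc m b l r r : ℝ) ≤ (((1 + l) * (2 ^ (m + b) *
      ((2 ^ m - m + 1 + 2 * b) * (r - m - b).choose ((r - m - b) / 2))) : ℕ) : ℝ) := by
    exact_mod_cast h1
  refine h2.trans ?_
  have h3 := mid_upper_real (r - m - b)
  have h3c : ((r - m - b : ℕ) : ℝ) = (r : ℝ) - m - b := by
    rw [Nat.cast_sub (by omega), Nat.cast_sub (by omega)]
  rw [h3c] at h3
  have h4 : (2 : ℝ) ^ r = 2 ^ (m + b) * 2 ^ (r - m - b) := by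
    rw [← pow_add]
    congr 1
    omega
  have h5 := facb_nonneg m b
  rw [Nat.cast_mul, Nat.cast_mul, Nat.cast_mul, Nat.cast_add, Nat.cast_add, Nat.cast_add,
    Nat.cast_sub hm2]
  push_cast
  refine mul_le_mul_of_nonneg_left ?_ (by positivity)
  calc (2 : ℝ) ^ (m + b) *
        ((2 ^ m - m + 1 + 2 * b) * ((r - m - b).choose ((r - m - b) / 2) : ℕ))
      ≤ 2 ^ (m + b) *
        ((2 ^ m - m + 1 + 2 * b) * (2 ^ (r - m - b) / √((r : ℝ) - m - b + 1))) :=
        mul_le_mul_of_nonneg_left (mul_le_mul_of_nonneg_left h3 h5) (by positivity)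
    _ = _ := by rw [h4]; ring

/-- explicit lower bound -/
theorem kcConc_lower_real {m b l r : ℕ} (hmr : m + b ≤ r) (hr : 5 ≤ r) :
    (1 / 2 : ℝ) * (2 ^ r / √(r : ℝ)) ≤ (kcConc m b l r r : ℝ) := by
  have h1 := kcAlmost_lower_real (m := 0) (Nat.zero_le r) hr
  rw [kcAlmost_zero] at h1
  refine h1.trans ?_
  exact_mod_cast kcTwo_le_kcConc (m := m) (b := b) (l := l) (r := r) hmr

/-- comparison of the denominators -/
lemma denomb_le {m b r : ℕ} (hmr : 2 * (m + b) ≤ r) (hr : 1 ≤ r) :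
    (2 : ℝ) ^ r / √((r : ℝ) - m - b + 1) ≤ 2 * (2 ^ r / √(r : ℝ)) := by
  have h := denom_le (m := m + b) (r := r) hmr hr
  have e : (r : ℝ) - ((m + b : ℕ) : ℝ) + 1 = (r : ℝ) - m - b + 1 := by
    push_cast
    ring
  rw [e] at h
  exact h

/-- order of growth -/
theorem kcConc_theta (m b l : ℕ) :
    (fun r : ℕ => (kcConc m b l r r : ℝ)) =Θ[atTop] (fun r : ℕ => (2 : ℝ) ^ r / √(r : ℝ)) := by
  constructor
  · refine IsBigO.of_bound ((1 + l) * ((2 ^ m - m + 1 + 2 * b) * 2)) ?_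
    filter_upwards [eventually_ge_atTop (2 * (m + b) + 1)] with r hr
    rw [Real.norm_of_nonneg (by positivity), Real.norm_of_nonneg (by positivity)]
    refine (kcConc_upper_real (m := m) (b := b) (l := l) (r := r) (by omega)).trans ?_
    rw [mul_assoc, mul_assoc]
    exact mul_le_mul_of_nonneg_left
      (mul_le_mul_of_nonneg_left (denomb_le (by omega) (by omega)) (facb_nonneg m b))
      (by positivity)
  · refine IsBigO.of_bound 2 ?_
    filter_upwards [eventually_ge_atTop (m + b + 5)] with r hr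
    rw [Real.norm_of_nonneg (by positivity), Real.norm_of_nonneg (by positivity)]
    have := kcConc_lower_real (m := m) (b := b) (l := l) (r := r) (by omega) (by omega)
    linarith

/-- slowly growing parameters -/
theorem kcConc_littleo (μ β ν : ℕ → ℕ)
    (hμ : Tendsto (fun r : ℕ => (1 + ν r) * ((2 : ℝ) ^ (μ r) + β r) / √(r : ℝ)) atTop (nhds 0)) :
    Tendsto (fun r : ℕ => (kcConc (μ r) (β r) (ν r) r r : ℝ) / 2 ^ r) atTop (nhds 0) := by
  have h4 : Tendsto (fun r : ℕ => 4 * ((1 + ν r) * ((2 : ℝ) ^ (μ r) + β r) / √(r : ℝ))) atTop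
      (nhds 0) := by
    simpa using hμ.const_mul 4
  refine squeeze_zero' (Eventually.of_forall fun r => by positivity) ?_ h4
  have hev : ∀ᶠ r : ℕ in atTop, (1 + ν r) * ((2 : ℝ) ^ (μ r) + β r) / √(r : ℝ) < 1 / 2 :=
    hμ.eventually (gt_mem_nhds (by norm_num))
  filter_upwards [hev, eventually_ge_atTop 1] with r h1 hr
  have hr1 : (1 : ℝ) ≤ r := by exact_mod_cast hr
  have hr0 : (0 : ℝ) < r := by linarith
  have hq : 0 < √(r : ℝ) := Real.sqrt_pos.2 hr0
  have hs2 : √(r : ℝ) ≤ r := by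
    rw [Real.sqrt_le_left hr0.le]
    nlinarith
  have h2' : (1 + ν r) * ((2 : ℝ) ^ (μ r) + β r) < 1 / 2 * √(r : ℝ) := by
    rwa [div_lt_iff₀ hq] at h1
  have hν : (0 : ℝ) ≤ (ν r : ℕ) := Nat.cast_nonneg _
  have hpos : (0 : ℝ) ≤ (2 : ℝ) ^ (μ r) + β r := by positivity
  have h2 : (2 : ℝ) ^ (μ r) + β r < 1 / 2 * √(r : ℝ) := by nlinarith
  have h3 : ((μ r : ℕ) : ℝ) < 2 ^ (μ r) := by
    exact_mod_cast (Nat.lt_two_pow_self (n := μ r))
  have h5 : 2 * (μ r + β r) ≤ r := by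
    have : (2 : ℝ) * ((μ r : ℕ) + (β r : ℕ)) ≤ r := by linarith
    exact_mod_cast this
  have h6 := kcConc_upper_real (m := μ r) (b := β r) (l := ν r) (r := r) (by omega)
  have h7 := denomb_le (m := μ r) (b := β r) (r := r) h5 hr
  have h8 : (2 : ℝ) ^ (μ r) - (μ r : ℕ) + 1 + 2 * (β r : ℕ) ≤ 2 * (2 ^ (μ r) + β r) := by
    have h9 : (1 : ℝ) ≤ 2 ^ (μ r) := one_le_pow₀ (by norm_num)
    have h10 : (0 : ℝ) ≤ (μ r : ℕ) := Nat.cast_nonneg _
    linarith
  rw [div_le_iff₀ (by positivity)]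
  calc (kcConc (μ r) (β r) (ν r) r r : ℝ)
      ≤ (1 + ν r) * ((2 ^ (μ r) - (μ r : ℕ) + 1 + 2 * (β r : ℕ)) *
        (2 ^ r / √((r : ℝ) - (μ r : ℕ) - (β r : ℕ) + 1))) := h6
    _ ≤ (1 + ν r) * ((2 * (2 ^ (μ r) + β r)) * (2 * (2 ^ r / √(r : ℝ)))) :=
        mul_le_mul_of_nonneg_left
          (mul_le_mul h8 h7 (by positivity) (by positivity)) (by positivity)
    _ = 4 * ((1 + ν r) * ((2 : ℝ) ^ (μ r) + β r) / √(r : ℝ)) * 2 ^ r := by ring

end Pool.Agent.helper82.KCG
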